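import Pool.Agent.V1198.MultiRef

/-!
# MP_c73427_an, Q1: a multi-reflexive free locally convex space is Schwartz
-/

set_option autoImplicit false

namespace Pool.Agent.Results.MP_c73427_an.Schwartz

open Pool.Agent.V1198.MR

/-- **Theorem.** Let `X` be a Tychonoff space and let `L` (with `ι : X → L`) be the free locally
convex space over `X`. If `L` is multi-reflexive, then `L` is a Schwartz space. -/
theorem result : ∀ (X : Type) [TopologicalSpace X] [T35Space X] (L : Type) [AddCommGroup L]
    [Module ℝ L] [TopologicalSpace L] [IsTopologicalAddGroup L] [ContinuousSMul ℝ L]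
    [LocallyConvexSpace ℝ L] [T2Space L] (ι : X → L), IsFreeLCS X L ι → MultiReflexive L →
    Schwartz L := by
  intro X _ _ L _ _ _ _ _ _ _ ι hι hL
  exact schwartz_of_multiReflexive hι hL

end Pool.Agent.Results.MP_c73427_an.Schwartz
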